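import Pool.Agent.H.MP_3f42a7_lc.C

namespace Pool.Agent.Results.MP_3f42a7_lc.Omit

open Pool.Agent.H.MP_d84959_lc

theorem result (α β γ : Fm) (h1 : Disjoint (letters β) (letters α))
    (h2 : Disjoint (letters β) (letters γ))
    (H : HasTree Par True (.imp (.and α β) γ) ∨ HasTree Par True (.imp α (.or β γ))) :
    HasTree Par True (.imp α γ) :=
  Pool.Agent.H.MP_3f42a7_lc.omissible h1.symm h2.symm H

end Pool.Agent.Results.MP_3f42a7_lc.Omit
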